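import Pool.Agent.U36.HV.Main

/-!
# The Harari–Voloch conjecture for curves with many points at infinity

Let `F` be a number field, `S` the set of its archimedean places, and `X = ℙ¹ ∖ D`, where `D`
consists of the rational point `∞` and `n` further closed points, given by distinct monic irreducible
polynomials `P i ∈ F[X]`, with the residue fields `L i = F[X]/(P i)`. The torus `T` whose characters
are the divisors of degree zero with support in `D` is the product of the Weil restrictions of `𝔾_m`
from the `L i` to `F`, and `X` lies in `T` by `x ↦ (x - θ i)`, where `θ i` is the class of the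
variable in `L i`.

We prove that the closure of `T(F)` in `T(𝔸)`, where `𝔸` is the ring of finite adeles of `F`, meets
`X(𝔸)` exactly in `X(F)`, if `n ≥ [F : ℚ]`, or if `n ≥ [F : ℚ] / 2` and `F` contains a CM field. This
is the statement to which the conjecture for `X`, all its models and `S` is known to be equivalent.
For `F = ℚ` and for imaginary quadratic `F` the condition is `n ≥ 1`.

Proof. For a point `x` of `X(𝔸)` in the closure the norms from `F` to `ℚ` of the values of `P i` at
global approximations of `x` take finitely many values, as `ℚ` has only two units; in the CM case the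
same holds for the quotients of the norms to the CM field by their complex conjugates. These values
and the polynomials determine the point, considered as a point of the Weil restriction of the line to
`ℚ`, up to finitely many possibilities, by the valuative criterion of integrality. So all components of
`x` are roots of one polynomial over `F`. Now `x - θ i` lies in the closure of the multiplicative group
of a field, and its components are roots of one polynomial; it is global by Chebotarev's density
theorem and Kummer theory.
-/

set_option autoImplicit false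

open IsDedekindDomain NumberField Polynomial Pool.Agent.U36.HV

namespace Pool.Agent.Results.MP_78b700_nt.ManyCusps

/-- The set `X(𝔸)` in `T(𝔸)`: the elements `(x - θ i)` with `x` in the ring `𝔸` of finite adeles. -/
def adelicPoints {F : Type} [Field F] [NumberField F] {I : Type} (P : I → F[X]) :
    Set (∀ i, (AdelicAlgebra F (P i))ˣ) :=
  {u | ∃ x : FiniteAdeleRing (𝓞 F) F, ∀ i, (u i : AdelicAlgebra F (P i)) =
    algebraMap (FiniteAdeleRing (𝓞 F) F) (AdelicAlgebra F (P i)) x -
      incl (P i) (AdjoinRoot.root (P i))}

/-- The set `X(F)` in `T(𝔸)`: the elements `(x - θ i)` with `x` in `F`. -/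
def rationalPoints {F : Type} [Field F] [NumberField F] {I : Type} (P : I → F[X]) :
    Set (∀ i, (AdelicAlgebra F (P i))ˣ) :=
  {u | ∃ x : F, ∀ i, (u i : AdelicAlgebra F (P i)) =
    incl (P i) (algebraMap F (AdjoinRoot (P i)) x - AdjoinRoot.root (P i))}

theorem alg_eq {F : Type} [Field F] [NumberField F] (P : F[X]) (a : F) :
    algebraMap (FiniteAdeleRing (𝓞 F) F) (AdelicAlgebra F P) (algebraMap F _ a) =
      incl P (algebraMap F (AdjoinRoot P) a) := by
  have h1 : (algebraMap F (FiniteAdeleRing (𝓞 F) F) a) ⊗ₜ[F] (1 : AdjoinRoot P) =
      (1 : FiniteAdeleRing (𝓞 F) F) ⊗ₜ[F] (algebraMap F (AdjoinRoot P) a) := by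
    rw [Algebra.algebraMap_eq_smul_one, Algebra.algebraMap_eq_smul_one, TensorProduct.smul_tmul]
  exact h1

theorem result : ∀ (F : Type) [Field F] [NumberField F] (I : Type) [Fintype I] (P : I → F[X]),
    (∀ i, (P i).Monic) → (∀ i, Irreducible (P i)) → Function.Injective P →
    (Module.finrank ℚ F ≤ Fintype.card I ∨ (Module.finrank ℚ F ≤ 2 * Fintype.card I ∧
      ∃ (E : Type) (_ : Field E) (_ : NumberField E) (_ : Algebra E F), IsCMField E)) →
    closure (torusF P) ∩ adelicPoints P = rationalPoints P := by
  intro F _ _ I _ P hP hirr hinj hI
  apply Set.eq_of_subset_of_subset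
  · rintro u ⟨hu, x, hx⟩
    obtain ⟨a, ha⟩ := main P hP hirr hinj hI u hu x hx
    refine ⟨a, fun i => ?_⟩
    rw [hx i, ha, alg_eq, map_sub]
  · rintro u ⟨a, ha⟩
    refine ⟨subset_closure ?_, algebraMap F _ a, fun i => ?_⟩
    · have hne : ∀ i, algebraMap F (AdjoinRoot (P i)) a - AdjoinRoot.root (P i) ≠ 0 := by
        intro i h0
        have h1 := (u i).isUnit
        rw [ha i, h0, map_zero, isUnit_zero_iff] at h1
        have hf : Fact (Irreducible (P i)) := ⟨hirr i⟩
        have hnf : NumberField (AdjoinRoot (P i)) := by
          have := (AdjoinRoot.powerBasis (hP i).ne_zero).finite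
          exact NumberField.of_module_finite F _
        have h2 := congrArg (psi (AlgHom.id F (AdjoinRoot (P i)))) h1
        rw [map_zero, map_one] at h2
        obtain ⟨w⟩ := exists_place (AdjoinRoot (P i))
        have h3 := congrArg (fun z : FiniteAdeleRing (𝓞 (AdjoinRoot (P i))) (AdjoinRoot (P i)) =>
          z w) h2
        exact zero_ne_one (α := w.adicCompletion (AdjoinRoot (P i))) h3
      have hunit : ∀ i, IsUnit (algebraMap F (AdjoinRoot (P i)) a - AdjoinRoot.root (P i)) := by
        intro i
        have hf : Fact (Irreducible (P i)) := ⟨hirr i⟩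
        exact isUnit_iff_ne_zero.2 (hne i)
      choose l hl using hunit
      refine ⟨l, funext fun i => Units.ext ?_⟩
      rw [ha i, ← hl i]
      rfl
    · rw [ha i, alg_eq, map_sub]

end Pool.Agent.Results.MP_78b700_nt.ManyCusps
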